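import Pool.Agent.PRC.Fin

/-!
# Sets with the section-centroid collinearity property and polyhedral recession cone

Part I (`Pool.Agent.PCN`): helper87. Part II (`Pool.Agent.PRC`): helper88. Simplicial cones and the definitions
(`Pool.Agent.H30.Sccp`): helper30.
-/

open Pool.Agent.H30.Sccp

namespace Pool.Agent.Results.MP_5f8b0b_gt.PolyhedralCone

/-- Let `Ω` be a closed strictly convex set in `ℝ^(n+1)`, `n ≥ 1`, neither empty nor the whole
space, whose recession cone is polyhedral (the set where finitely many linear functionals are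
nonnegative) and has interior points. Then `Ω` has the section-centroid collinearity property if
and only if, in some affine coordinates (a basis `b` and an origin `o`), it is the set of points
with nonnegative coordinates whose product is at least `c`, for some `c > 0`. -/
theorem result (n : ℕ) (hn : 1 ≤ n) (m : ℕ)
    (φ : Fin m → (EuclideanSpace ℝ (Fin (n + 1)) →ₗ[ℝ] ℝ))
    (Ω : Set (EuclideanSpace ℝ (Fin (n + 1)))) (hclosed : IsClosed Ω)
    (hconv : StrictConvex ℝ Ω) (hne : Ω.Nonempty) (hun : Ω ≠ Set.univ)
    (hrec : recCone Ω = {d | ∀ j, 0 ≤ φ j d}) (hint : (interior (recCone Ω)).Nonempty) :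
    SCCP n Ω ↔ ∃ (b : Module.Basis (Fin (n + 1)) ℝ (EuclideanSpace ℝ (Fin (n + 1))))
      (o : EuclideanSpace ℝ (Fin (n + 1))) (c : ℝ), 0 < c ∧
      Ω = {x | (∀ i, 0 ≤ b.repr (x - o) i) ∧ c ≤ ∏ i, b.repr (x - o) i} :=
  Pool.Agent.PRC.final n hn m φ Ω hclosed hconv hne hun hrec hint

end Pool.Agent.Results.MP_5f8b0b_gt.PolyhedralCone
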